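import Pool.Agent.Helper98.EX.Stmts

/-!
# Module LOC: locality of the exclusion dynamics
-/

namespace Pool.Agent.Helper98.EX

open Finset

variable {N : ℕ}

theorem loc_occ_Rm {x y : ℕ} (η : Cfg N) (h1 : y ≠ x) (h2 : y + 1 ≠ x) :
    occ (Rm x η) y = occ η y := by
  unfold Rm; split_ifs with h
  · exact occ_swp_ne h.1 h.2.1 η h1 h2
  · rfl

theorem loc_occ_Lm {x y : ℕ} (η : Cfg N) (h1 : y ≠ x) (h2 : y + 1 ≠ x) :
    occ (Lm x η) y = occ η y := by
  unfold Lm; split_ifs with h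
  · exact occ_swp_ne h.1 h.2.1 η h1 h2
  · rfl

/-- a function that is invariant under all open marks is fixed by the step -/
theorem loc_stp_fix (r l : ℕ → ℝ) (S : Finset ℕ) (f : Cfg N → ℝ)
    (hR : ∀ x ∈ S, ∀ η, f (Rm x η) = f η) (hL : ∀ x ∈ S, ∀ η, f (Lm x η) = f η) :
    stp r l S f = f := by
  funext η
  rw [stp_open]
  have : ∑ x ∈ S, (r x * (f (Rm x η) - f η) + l x * (f (Lm x η) - f η)) = 0 := by
    apply Finset.sum_eq_zero
    intro x hx
    rw [hR x hx, hL x hx]; ring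
  rw [this]; simp

/-- a function that is invariant under all open marks is fixed by the evolution -/
theorem loc_ev_fix (r l : ℕ → ℝ) (σ : ℕ → Finset ℕ) (m : ℕ) (f : Cfg N → ℝ)
    (hR : ∀ i, ∀ x ∈ σ i, ∀ η, f (Rm x η) = f η) (hL : ∀ i, ∀ x ∈ σ i, ∀ η, f (Lm x η) = f η) :
    ev r l σ m f = f := by
  induction m generalizing σ with
  | zero => rfl
  | succ m ih =>
    rw [ev_succ, ih (fun i => σ (i + 1)) (fun i => hR (i + 1)) (fun i => hL (i + 1))]
    exact loc_stp_fix r l (σ 0) f (hR 0) (hL 0)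

theorem loc_cnt_Rm {x A B : ℕ} (η : Cfg N) (hAB : A ≤ B) (hB : B ≤ N) (h1 : x ≠ A) (h2 : x ≠ B) :
    cnt (Rm x η) A B = cnt η A B := by
  have a := ht_cnt η hAB hB
  have b := ht_cnt (Rm x η) hAB hB
  rw [ht_Rm_ne η (Ne.symm h1), ht_Rm_ne η (Ne.symm h2)] at b
  omega

theorem loc_cnt_Lm {x A B : ℕ} (η : Cfg N) (hAB : A ≤ B) (hB : B ≤ N) (h1 : x ≠ A) (h2 : x ≠ B) :
    cnt (Lm x η) A B = cnt η A B := by
  have a := ht_cnt η hAB hB
  have b := ht_cnt (Lm x η) hAB hB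
  rw [ht_Lm_ne η (Ne.symm h1), ht_Lm_ne η (Ne.symm h2)] at b
  omega

/-- local function on the window `[A,B)` -/
def LocOn (A B : ℕ) (f : Cfg N → ℝ) : Prop :=
  ∀ η ξ : Cfg N, (∀ x, A ≤ x → x < B → occ η x = occ ξ x) → f η = f ξ

theorem loc_Rm_agree {x A B : ℕ} {η ξ : Cfg N} (hA : A < x) (hB : x < B)
    (h : ∀ y, A ≤ y → y < B → occ η y = occ ξ y) :
    ∀ y, A ≤ y → y < B → occ (Rm x η) y = occ (Rm x ξ) y := by
  intro y hy1 hy2
  have e1 := h (x - 1) (by omega) (by omega)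
  have e2 := h x (by omega) (by omega)
  have e3 := h y hy1 hy2
  unfold Rm
  rw [← e1, ← e2]
  split_ifs with hh
  · rw [occ_swp hh.1 hh.2.1, occ_swp hh.1 hh.2.1, e1, e2, e3]
  · exact e3

theorem loc_Lm_agree {x A B : ℕ} {η ξ : Cfg N} (hA : A < x) (hB : x < B)
    (h : ∀ y, A ≤ y → y < B → occ η y = occ ξ y) :
    ∀ y, A ≤ y → y < B → occ (Lm x η) y = occ (Lm x ξ) y := by
  intro y hy1 hy2
  have e1 := h (x - 1) (by omega) (by omega)
  have e2 := h x (by omega) (by omega)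
  have e3 := h y hy1 hy2
  unfold Lm
  rw [← e1, ← e2]
  split_ifs with hh
  · rw [occ_swp hh.1 hh.2.1, occ_swp hh.1 hh.2.1, e1, e2, e3]
  · exact e3

theorem loc_stp_local (r l : ℕ → ℝ) (S : Finset ℕ) {A B : ℕ} {f : Cfg N → ℝ}
    (hf : LocOn A B f) (hS : ∀ x ∈ S, A < x ∧ x < B) : LocOn A B (stp r l S f) := by
  intro η ξ h
  rw [stp_open, stp_open, hf η ξ h]
  congr 2
  apply Finset.sum_congr rfl
  intro x hx
  rw [hf _ _ (loc_Rm_agree (hS x hx).1 (hS x hx).2 h), hf _ _ (loc_Lm_agree (hS x hx).1 (hS x hx).2 h)]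

theorem loc_stp_restrict (r l : ℕ → ℝ) (S : Finset ℕ) {A B : ℕ} {f : Cfg N → ℝ}
    (hf : LocOn A B f) (hA : A ∉ S) (hB : B ∉ S) :
    stp r l S f = stp r l (S ∩ Finset.Ioo A B) f := by
  funext η
  rw [stp_open, stp_open]
  congr 2
  symm
  apply Finset.sum_subset Finset.inter_subset_left
  intro x hx hx'
  have hxA : x ≠ A := fun e => hA (e ▸ hx)
  have hxB : x ≠ B := fun e => hB (e ▸ hx)
  have hout : ¬ (A < x ∧ x < B) := by
    intro hh
    apply hx'
    rw [Finset.mem_inter, Finset.mem_Ioo]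
    exact ⟨hx, hh⟩
  have e1 : f (Rm x η) = f η := by
    apply hf
    intro y h1 h2
    exact loc_occ_Rm η (by omega) (by omega)
  have e2 : f (Lm x η) = f η := by
    apply hf
    intro y h1 h2
    exact loc_occ_Lm η (by omega) (by omega)
  rw [e1, e2]; ring

theorem loc_ev_restrict (r l : ℕ → ℝ) (σ : ℕ → Finset ℕ) (m : ℕ) {A B : ℕ} {f : Cfg N → ℝ}
    (hσ : ∀ i, A ∉ σ i ∧ B ∉ σ i) (hf : LocOn A B f) :
    ev r l σ m f = ev r l (fun i => σ i ∩ Finset.Ioo A B) m f ∧ LocOn A B (ev r l σ m f) := by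
  induction m generalizing σ with
  | zero => exact ⟨rfl, hf⟩
  | succ m ih =>
    obtain ⟨e, hl⟩ := ih (fun i => σ (i + 1)) (fun i => hσ (i + 1))
    have e2 : ev r l σ (m + 1) f = ev r l (fun i => σ i ∩ Finset.Ioo A B) (m + 1) f := by
      rw [ev_succ, ev_succ, ← e]
      exact loc_stp_restrict r l (σ 0) hl (hσ 0).1 (hσ 0).2
    refine ⟨e2, ?_⟩
    rw [ev_succ, loc_stp_restrict r l (σ 0) hl (hσ 0).1 (hσ 0).2]
    apply loc_stp_local r l _ hl
    intro x hx
    rw [Finset.mem_inter, Finset.mem_Ioo] at hx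
    exact hx.2

theorem st_LOC : ST_LOC := by
  refine ⟨?_, ?_, ?_⟩
  · intro N r l σ m x η h
    have h1 : ev r l σ m (ind {ξ : Cfg N | occ ξ x ≠ occ η x}) =
        ind {ξ : Cfg N | occ ξ x ≠ occ η x} := by
      apply loc_ev_fix
      · intro i y hy ζ
        have e := loc_occ_Rm (x := y) (y := x) ζ (fun e => (h i).1 (e ▸ hy))
          (fun e => (h i).2 (e ▸ hy))
        simp only [ind, Set.mem_setOf_eq, e]
      · intro i y hy ζ
        have e := loc_occ_Lm (x := y) (y := x) ζ (fun e => (h i).1 (e ▸ hy))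
          (fun e => (h i).2 (e ▸ hy))
        simp only [ind, Set.mem_setOf_eq, e]
    unfold pr
    rw [h1]
    exact ind_of_not_mem (by simp)
  · intro N r l σ m A B η hAB hB h
    have h1 : ev r l σ m (ind {ξ : Cfg N | cnt ξ A B ≠ cnt η A B}) =
        ind {ξ : Cfg N | cnt ξ A B ≠ cnt η A B} := by
      apply loc_ev_fix
      · intro i y hy ζ
        have e := loc_cnt_Rm (x := y) ζ hAB hB (fun e => (h i).1 (e ▸ hy))
          (fun e => (h i).2 (e ▸ hy))
        simp only [ind, Set.mem_setOf_eq, e]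
      · intro i y hy ζ
        have e := loc_cnt_Lm (x := y) ζ hAB hB (fun e => (h i).1 (e ▸ hy))
          (fun e => (h i).2 (e ▸ hy))
        simp only [ind, Set.mem_setOf_eq, e]
    unfold pr
    rw [h1]
    exact ind_of_not_mem (by simp)
  · intro N r l σ m A B f η h hf
    rw [(loc_ev_restrict r l σ m h hf).1]

end Pool.Agent.Helper98.EX
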