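import Pool.Agent.Helper98.EX.Stmts3

/-!
# Module MAINNN: cutoff for non-nestling laws
-/

namespace Pool.Agent.Helper98.EX

open Finset MeasureTheory ProbabilityTheory Filter
open scoped Topology

theorem mainnn_ht_eq {N : ℕ} {η : Cfg N} {q : ℕ} (h : ∀ i, i < q → occ η i = false) :
    ∀ i, i ≤ q → ht η i = ht η 0 := by
  intro i
  induction i with
  | zero => intro _; rfl
  | succ i ih =>
    intro hi
    rcases lt_or_ge i N with hN | hN
    · rw [← (not_occ_iff_ht η hN).1 (h i (by omega))]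
      exact ih (by omega)
    · have h1 := ih (by omega)
      have h2 : ht η (i + 1) = 0 := ht_ge (by omega)
      have h3 : ht η i = 0 := ht_ge hN
      omega

theorem mainnn_ht_full {N : ℕ} {η : Cfg N} {q : ℕ} (h : ∀ i, q ≤ i → i < N → occ η i = true) :
    ∀ d, d ≤ N → q ≤ N - d → ht η (N - d) = d := by
  intro d
  induction d with
  | zero => intro _ _; rw [ht_ge (by omega)]
  | succ d ih =>
    intro hd hq
    have e : N - (d + 1) + 1 = N - d := by omega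
    have h1 := (occ_iff_ht η (by omega : N - (d + 1) < N)).1 (h _ hq (by omega))
    rw [h1, e, ih (by omega) (by omega)]

/-- the event `sorted` is increasing on each sector -/
theorem mainnn_inc (N k q1 q2 : ℕ) : Inc k (ind (sorted 0 q1 q2 N : Set (Cfg N))) := by
  apply pr_Inc_ind
  intro η ξ hη hξ hle hm
  obtain ⟨h1, h2⟩ := hm
  refine ⟨?_, ?_⟩
  · intro i _ hi
    by_contra hc
    have hc' : occ ξ i = true := by simpa using hc
    have hiN : i < N := by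
      by_contra hn
      rw [occ_ge (by omega)] at hc'
      exact absurd hc' (by simp)
    have e1 := (occ_iff_ht ξ hiN).1 hc'
    have e2 := ht_anti ξ (Nat.zero_le i)
    have e3 := mainnn_ht_eq (fun j hj => h1 j (Nat.zero_le j) hj) (i + 1) (by omega)
    have e4 := hle (i + 1)
    omega
  · intro i hi hiN
    rw [occ_iff_ht ξ hiN]
    have e1 := mainnn_ht_full h2 (N - i) (by omega) (by omega)
    have e2 : N - (N - i) = i := by omega
    rw [e2] at e1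
    have e3 := hle i
    have e4 := ht_le ξ i
    have e5 := ht_le ξ (i + 1)
    have e6 := ht_le_succ ξ i
    omega

theorem mainnn_modl_adm {N : ℕ} {r l : ℕ → ℝ} (hN : 1 ≤ N) (h : Adm N r l) :
    Adm N r (modl N l) ∧ Pos N (modl N l) := by
  have h1 : (1 : ℝ) ≤ N := by exact_mod_cast hN
  have h2 : (N : ℝ) ^ (-100 : ℝ) ≤ 1 := Real.rpow_le_one_of_one_le_of_nonpos h1 (by norm_num)
  have h3 : (0 : ℝ) < (N : ℝ) ^ (-100 : ℝ) := Real.rpow_pos_of_pos (by linarith) _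
  refine ⟨?_, ?_⟩
  · intro x hx1 hx2
    obtain ⟨a, b, c, d⟩ := h x hx1 hx2
    exact ⟨a, b, le_max_of_le_left c, max_le d h2⟩
  · intro x _ _
    exact lt_max_of_lt_right h3

theorem mainnn_large (K as : ℝ) (hK : 0 < K) : ∃ N1 : ℕ, ∀ (N : ℕ) (T : ℝ), N1 ≤ N → 1 ≤ N →
    K * N ≤ T → (N : ℝ) ^ (2 * (1 / 10 : ℝ)) * as ≤ Real.sqrt T := by
  have ht : Tendsto (fun N : ℕ => (N : ℝ) ^ (3 / 10 : ℝ)) atTop atTop :=
    (tendsto_rpow_atTop (by norm_num)).comp tendsto_natCast_atTop_atTop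
  have hs : 0 < Real.sqrt K := Real.sqrt_pos.2 hK
  obtain ⟨N1, hN1⟩ := eventually_atTop.1 (ht.eventually_ge_atTop (as / Real.sqrt K))
  refine ⟨N1, ?_⟩
  intro N T hN hN' hT
  have h1 := hN1 N hN
  have hNp : (0 : ℝ) < N := by exact_mod_cast hN'
  rw [div_le_iff₀ hs] at h1
  have h2 : Real.sqrt (K * N) ≤ Real.sqrt T := Real.sqrt_le_sqrt hT
  refine le_trans ?_ h2
  rw [Real.sqrt_mul hK.le, Real.sqrt_eq_rpow (N : ℝ)]
  have h3 : (N : ℝ) ^ (1 / 2 : ℝ) = (N : ℝ) ^ (2 * (1 / 10 : ℝ)) * (N : ℝ) ^ (3 / 10 : ℝ) := by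
    rw [← Real.rpow_add hNp]; norm_num
  rw [h3]
  have h4 : (0 : ℝ) < (N : ℝ) ^ (2 * (1 / 10 : ℝ)) := Real.rpow_pos_of_pos hNp _
  nlinarith

theorem st_MAINNN (h1 : ST_NNG) (h2 : ST_DT1) (h3 : ST_DT2) (h4 : ST_LOW) (h5 : ST_STATTAIL)
    (h6 : ST_STC) (h7 : ST_CUT) : ST_MAINNN := by
  intro Ω _ P X t hX ht h0 c ε δ ηp hc hε hε2 hδ hδ1 hηp
  have htp : 0 < min t (1 / 4) := lt_min ht (by norm_num)
  have htp1 : min t (1 / 4) ≤ 1 / 4 := min_le_right _ _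
  have htp2 : min t (1 / 4) ≤ t := min_le_left _ _
  obtain ⟨p0, hp0⟩ : ∃ p0 : ℝ, p0 = 1 / 2 + min t (1 / 4) := ⟨_, rfl⟩
  obtain ⟨q0, hq0⟩ : ∃ q0 : ℝ, q0 = 1 / 2 - min t (1 / 4) := ⟨_, rfl⟩
  have hq0p : 0 < q0 := by rw [hq0]; linarith
  have hqp : q0 < p0 := by rw [hq0, hp0]; linarith
  have hp01 : p0 ≤ 1 := by rw [hp0]; linarith
  have hp0p : 0 < p0 := hq0p.trans hqp
  obtain ⟨ηm, hηm, hηm1, hA⟩ := h1 p0 q0 c (1 / 10) hq0p hqp hp01 hc (by norm_num) (by norm_num)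
  obtain ⟨K0, as, Cs, C1, has, hCs, hC1, hK0, hA⟩ := hA ηm hηm le_rfl
  obtain ⟨m0, Na, hA⟩ := hA (ε / 32) (by linarith)
  obtain ⟨K, Nb, hK, hB⟩ := h2 ε δ (1 / 10) ηm Cs C1 p0 m0 hε (by linarith) hδ (by norm_num)
    (by norm_num) hηm hηm1 hCs hC1 hp0p hp01
  obtain ⟨Nc, hC⟩ := h3 p0 q0 c ε δ K m0 hq0p hqp hp01 hc hε (by linarith) hδ hK
  obtain ⟨c', Nd, hc', hD⟩ := h4 ε c m0 hε hc
  obtain ⟨Ne, hE⟩ := h7 ε δ c' hε hε2 hδ hδ1 hc'
  obtain ⟨Nf, hF⟩ := mainnn_large K as hK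
  refine ⟨max 1 (max Na (max Nb (max Nc (max Nd (max Ne Nf))))), ?_⟩
  intro N k hN hk1 hk2
  simp only [max_le_iff] at hN
  obtain ⟨hN1, hNa, hNb, hNc, hNd, hNe, hNf⟩ := hN
  have hNr : (1 : ℝ) ≤ N := by exact_mod_cast hN1
  have hkN : k ≤ N := by
    have : (k : ℝ) ≤ N := by nlinarith
    exact_mod_cast this
  -- the exceptional set is a null set
  have hnull : P (⋃ x, {ω | X x ω < 1 / 2 + t}) = 0 := by
    rw [measure_iUnion_null_iff]
    intro x
    have h8 := (hX.ident x).measure_mem_eq (measurableSet_Iio (a := 1 / 2 + t))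
    have h9 : X 0 ⁻¹' Set.Iio (1 / 2 + t) = {ω | X 0 ω < 1 / 2 + t} := rfl
    have h10 : X x ⁻¹' Set.Iio (1 / 2 + t) = {ω | X x ω < 1 / 2 + t} := rfl
    rw [h9, h10, h0] at h8
    exact h8
  refine le_trans (measure_mono ?_) (le_trans (le_of_eq hnull) bot_le)
  intro ω hω
  obtain ⟨π, hπ, hbad⟩ := hω
  by_contra hgood
  apply hbad
  simp only [Set.mem_iUnion, not_exists] at hgood
  have hge : ∀ x, 1 / 2 + t ≤ EE X ω x := fun x => not_lt.1 (hgood x)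
  have hrng : ∀ x, 0 < EE X ω x ∧ EE X ω x ≤ 1 := fun x => hX.rng x ω
  have hNN : NN N (rE (EE X ω)) (lE (EE X ω)) p0 q0 := by
    intro x _ _
    have a1 := hge (x - 1)
    have a2 := hge x
    have a3 := (hrng (x - 1)).2
    have a4 := (hrng x).2
    refine ⟨?_, a3, ?_, ?_⟩
    · rw [hp0]; unfold rE; linarith
    · unfold lE; linarith
    · rw [hq0]; unfold lE; linarith
  have hAdm : Adm N (rE (EE X ω)) (lE (EE X ω)) := by
    intro x hx1 hx2
    obtain ⟨a1, a2, a3, a4⟩ := hNN x hx1 hx2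
    exact ⟨by linarith, a2, a3, by linarith⟩
  obtain ⟨w, _, hG, htail, hmod, _⟩ := hA N k (rE (EE X ω)) (lE (EE X ω)) hNa hk1 hk2 hNN
  obtain ⟨hAdm', hPos'⟩ := mainnn_modl_adm hN1 hAdm
  apply hE N k (EE X ω) π (sorted 0 (N - k - m0) (N - k + m0) N) hNe hkN hrng hπ
    (mainnn_inc N k _ _)
  · have hst := (h6 N k (EE X ω) hN1 hkN hrng).2.2 π hπ
    have g1 := hG.m0w
    have g2 := hG.hB
    have := h5 N k (rE (EE X ω)) (lE (EE X ω)) (modl N (lE (EE X ω))) (extC π) (N - k - m0)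
      (N - k + m0) hN1 hkN hAdm hAdm' hPos' hmod hst (by omega) (by omega) (by omega)
    refine this.trans ?_
    unfold tails at htail
    refine htail.trans ?_
    linarith
  · intro m1 hm1
    refine ⟨hD N k _ _ m1 hNd hk1 hk2 hAdm hm1, ?_⟩
    rcases le_total (K * N) ((m1 : ℝ) / (2 * N)) with hcase | hcase
    · exact hB N k _ _ w m1 as hNb hG hm1 hcase (hF N _ hNf hN1 hcase)
    · refine hC N k _ _ m1 hNc hk1 hk2 hNN ?_ hm1 hcase
      refine htail.trans ?_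
      linarith

end Pool.Agent.Helper98.EX
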